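import Mathlib
import Pool.Agent.V8H2.AP.Final

/-! # Colourings with fewer monochromatic `k`-term progressions than random colourings

The colouring of `{1, ..., n}` is `x ↦ F (type of the block of x, x - 1 mod m)`, where the blocks
are long intervals of equal length, three of the blocks are special, and `F` is a suitable
function on finitely many cells. The function `F` comes from a random choice in which the
probabilities of the first two colours are slightly perturbed in the three special blocks; the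
second order term of the expected number of monochromatic progressions is negative. -/

set_option autoImplicit false

namespace Pool.Agent.Results.MP_6bff71_co.BeatRandom

open Finset Pool.Agent.V8H2.AP

/-- `P` is a `k`-term arithmetic progression in `[n] = {1, ..., n}`. -/
def IsAP (k n : ℕ) (P : Finset ℕ) : Prop :=
  ∃ a d : ℕ, 1 ≤ a ∧ 1 ≤ d ∧ P = (Finset.range k).image (fun i => a + i * d) ∧
    P ⊆ Finset.Icc 1 n

/-- The number of the monochromatic `k`-term arithmetic progressions in `[n]`. -/
noncomputable def monoCount (k n : ℕ) {r : ℕ} (χ : ℕ → Fin r) : ℕ :=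
  Set.ncard {P : Finset ℕ | IsAP k n P ∧ ∀ x ∈ P, ∀ y ∈ P, χ x = χ y}

theorem image_inj {K a d a' d' : ℕ} (hK : 1 ≤ K) (hd : 1 ≤ d) (hd' : 1 ≤ d')
    (h : (Finset.range (K + 1)).image (fun i => a + i * d) =
      (Finset.range (K + 1)).image (fun i => a' + i * d')) : a = a' ∧ d = d' := by
  have key : ∀ {a d a' d' : ℕ}, 1 ≤ d → 1 ≤ d' →
      (Finset.range (K + 1)).image (fun i => a + i * d) =
      (Finset.range (K + 1)).image (fun i => a' + i * d') → a' ≤ a ∧ a + K * d ≤ a' + K * d' := by
    intro a d a' d' _ _ h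
    constructor
    · have h1 : a ∈ (Finset.range (K + 1)).image (fun i => a + i * d) :=
        mem_image.2 ⟨0, mem_range.2 (by omega), by simp⟩
      rw [h] at h1
      obtain ⟨i, _, hi⟩ := mem_image.1 h1
      omega
    · have h1 : a + K * d ∈ (Finset.range (K + 1)).image (fun i => a + i * d) :=
        mem_image.2 ⟨K, mem_range.2 (by omega), rfl⟩
      rw [h] at h1
      obtain ⟨i, h2, hi⟩ := mem_image.1 h1
      rw [mem_range] at h2
      have : i * d' ≤ K * d' := Nat.mul_le_mul_right _ (by omega)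
      omega
  obtain ⟨h1, h2⟩ := key hd hd' h
  obtain ⟨h3, h4⟩ := key hd' hd h.symm
  have h5 : a = a' := by omega
  subst h5
  have h6 : K * d = K * d' := by omega
  exact ⟨rfl, Nat.eq_of_mul_eq_mul_left (by omega) h6⟩

theorem monoCount_eq {K n r : ℕ} (hK : 1 ≤ K) (χ : ℕ → Fin r) :
    monoCount (K + 1) n χ = NN K (fun x => χ (x + 1)) n := by
  classical
  have h1 : {P : Finset ℕ | IsAP (K + 1) n P ∧ ∀ x ∈ P, ∀ y ∈ P, χ x = χ y} =
      (fun p : ℕ × ℕ => (Finset.range (K + 1)).image (fun i => p.1 + 1 + i * p.2)) ''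
        ((APs K n).filter fun p => ∀ i : Fin (K + 1),
          χ (p.1 + i.val * p.2 + 1) = χ (p.1 + 1) : Finset (ℕ × ℕ)) := by
    ext P
    rw [Set.mem_ofPred_eq, Set.mem_image]
    constructor
    · rintro ⟨⟨a, d, ha, hd, hP, hsub⟩, hmono⟩
      have hmem : ∀ i, i ≤ K → a + i * d ∈ P := fun i hi => by
        rw [hP]
        exact mem_image.2 ⟨i, mem_range.2 (by omega), rfl⟩
      have h2 := mem_Icc.1 (hsub (hmem K le_rfl))
      have h3 : d ≤ K * d := Nat.le_mul_of_pos_left _ (by omega)
      refine ⟨(a - 1, d), ?_, ?_⟩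
      · rw [mem_coe, mem_filter, APs, mem_filter, mem_product, mem_range, mem_range]
        refine ⟨⟨⟨by simp only; omega, by simp only; omega⟩, hd, by simp only; omega⟩,
          fun i => ?_⟩
        simp only
        have e1 : a - 1 + i.val * d + 1 = a + i.val * d := by omega
        have e2 : a - 1 + 1 = a + 0 * d := by omega
        rw [e1, e2]
        exact hmono _ (hmem _ (by omega)) _ (hmem _ (by omega))
      · simp only
        have e2 : a - 1 + 1 = a := by omega
        rw [e2, hP]
    · rintro ⟨⟨a, d⟩, h2, h3⟩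
      rw [mem_coe, mem_filter, APs, mem_filter, mem_product, mem_range, mem_range] at h2
      simp only at h2 h3
      obtain ⟨⟨⟨h4, h5⟩, h6, h7⟩, h8⟩ := h2
      subst h3
      refine ⟨⟨a + 1, d, by omega, h6, rfl, ?_⟩, ?_⟩
      · intro x hx
        obtain ⟨i, hi, rfl⟩ := mem_image.1 hx
        rw [mem_range] at hi
        have : i * d ≤ K * d := Nat.mul_le_mul_right _ (by omega)
        rw [mem_Icc]
        omega
      · have h9 : ∀ x ∈ (Finset.range (K + 1)).image (fun i => a + 1 + i * d),
            χ x = χ (a + 1) := by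
          intro x hx
          obtain ⟨i, hi, rfl⟩ := mem_image.1 hx
          rw [mem_range] at hi
          have := h8 ⟨i, hi⟩
          simp only at this
          have e : a + 1 + i * d = a + i * d + 1 := by ring
          rw [e, this]
        intro x hx y hy
        rw [h9 x hx, h9 y hy]
  unfold monoCount NN
  rw [h1, Set.InjOn.ncard_image, Set.ncard_coe_finset]
  rintro ⟨a, d⟩ h2 ⟨a', d'⟩ h3 h4
  rw [mem_coe, mem_filter, APs, mem_filter] at h2 h3
  obtain ⟨h5, h6⟩ := image_inj hK h2.1.2.1 h3.1.2.1 h4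
  rw [Prod.mk.injEq]
  exact ⟨by omega, h6⟩

/-- **For all `k ≥ 3` and `r ≥ 2` the random rate is beaten.** There are a constant `δ` strictly
below `1 / (2 (k - 1) r ^ (k - 1))` and `r`-colourings `χ n` of `{1, ..., n}` whose number of
monochromatic `k`-term arithmetic progressions is `δ n ^ 2 + O(n)`. -/
theorem result (k r : ℕ) (hk : 3 ≤ k) (hr : 2 ≤ r) :
    ∃ δ : ℝ, δ < 1 / (2 * ((k : ℝ) - 1) * (r : ℝ) ^ (k - 1)) ∧
      ∃ (χ : ℕ → ℕ → Fin r) (C : ℝ), ∀ n : ℕ,
        |(monoCount k n (χ n) : ℝ) - δ * (n : ℝ) ^ 2| ≤ C * n := by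
  obtain ⟨K, rfl⟩ : ∃ K, k = K + 1 := ⟨k - 1, by omega⟩
  obtain ⟨s, rfl⟩ : ∃ s, r = s + 2 := ⟨r - 2, by omega⟩
  obtain ⟨δ, hδ, χ, C, h⟩ := main0 K s (by omega)
  refine ⟨δ, ?_, fun n x => χ n (x - 1), C, fun n => ?_⟩
  · have e : ((K + 1 : ℕ) : ℝ) - 1 = K := by push_cast; ring
    rw [e, Nat.add_sub_cancel]
    exact hδ
  · rw [monoCount_eq (by omega)]
    exact h n

end Pool.Agent.Results.MP_6bff71_co.BeatRandom
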